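import Pool.Agent.Q210.KF.AbDefs
import Pool.Agent.Q28.HJ.GMain

/-!
# Sums of binary forms and of cubic forms in four variables: Kimura finiteness
-/

open CategoryTheory MonoidalCategory Limits

universe v u w w'

namespace Pool.Agent.Q210.KF

open Pool.Agent.Q28.HJ Pool.Agent.Y112.SR Pool.Agent.Y112.KD Pool.Agent.Q20.Kf

namespace AbelianData

variable {𝓜 : Type u} [Category.{v} 𝓜] [Preadditive 𝓜] [Linear ℚ 𝓜] [MonoidalCategory 𝓜]
  [MonoidalPreadditive 𝓜] [MonoidalLinear ℚ 𝓜] [SymmetricCategory 𝓜] [RightRigidCategory 𝓜]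
  {T : AbelianData.{v, u, w} 𝓜} {K : Type w'} [Field K] {R : SuperRealisation 𝓜 K}

omit [RightRigidCategory 𝓜] in
/-- all motives generated by the hypersurfaces are generated by abelian varieties -/
theorem gen (hT : T.Facts R) {M : 𝓜}
    (hM : GenBy T.L (fun N => T.Ab N ∨ ∃ W, T.IsAbelianSum W ∧ N = T.mot W) M) :
    GenBy T.L T.Ab M := by
  refine hM.bind ?_
  rintro N (hN | ⟨W, hW, rfl⟩)
  · exact .of hN
  · obtain ⟨hs, h⟩ := JoinData.abelian_sum hT.core hT.abelian hW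
    refine (hT.mot W hs).bind ?_
    rintro N rfl
    exact h

/-- finite dimensionality, nilpotence, absence of phantoms -/
theorem finite (hU : UnitQ 𝓜) (hT : T.Facts R) {M : 𝓜}
    (hM : GenBy T.L (fun N => T.Ab N ∨ ∃ W, T.IsAbelianSum W ∧ N = T.mot W) M) :
    IsKimuraFinite M ∧ (∀ x : End M, R.H.map (x : M ⟶ M) = 0 → IsNilpotent x) ∧
      (IsZero (R.H.obj M) → IsZero M) := by
  have h := hT.kimura M (gen hT hM)
  refine ⟨h, fun x hx => kimura_nilp R hU h x hx, fun hz => ?_⟩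
  obtain ⟨n, hn⟩ := kimura_nilp R hU h (1 : End M) (hz.eq_of_src _ _)
  rw [one_pow] at hn
  rw [IsZero.iff_id_eq_zero]
  exact hn

/-- the exact exterior and symmetric powers -/
theorem exact_powers (hU : UnitQ 𝓜) (hT : T.Facts R) {W : T.Hyp} (hW : T.IsAbelianSum W) :
    ∃ b : ℕ, IsBetti (T.deg W) (T.dim W) b ∧
      (Even (T.dim W) → Kills (-1) (T.prim W) (b + 1) ∧ ¬ Kills (-1) (T.prim W) b) ∧
      (Odd (T.dim W) → Kills 1 (T.prim W) (b + 1) ∧ ¬ Kills 1 (T.prim W) b) := by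
  obtain ⟨hs, h⟩ := JoinData.abelian_sum hT.core hT.abelian hW
  have hK := hT.kimura _ h
  have hp := hT.par W hs
  refine ⟨_, hT.betti W hs, fun hn => ?_, fun hn => ?_⟩
  · rw [hn.neg_one_pow] at hp
    exact pure_exact R hU hK 1 (Or.inl rfl) hp
  · rw [hn.neg_one_pow] at hp
    have := pure_exact R hU hK (-1) (Or.inr rfl) hp
    rwa [neg_neg] at this

end AbelianData

end Pool.Agent.Q210.KF
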