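import Pool.Agent.Q20.Kf.Orbit

/-!
# Kimura finite objects with a pure realisation: exact exterior and symmetric powers
-/

set_option autoImplicit false
set_option linter.unusedSectionVars false
set_option backward.isDefEq.respectTransparency false
set_option backward.defeqAttrib.useBackward true

open CategoryTheory Limits MonoidalCategory
open Pool.Agent.Y112.SR Pool.Agent.Y112.KD Pool.Agent.Q20.Kf
open Pool.Agent.Y116.MT (tr)
open Pool.Agent.TH829.Kim (F F_succ InRad)

namespace Pool.Agent.Q210.KF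

universe v u w

variable {C : Type u} [Category.{v} C] [Preadditive C] [Linear ℚ C] [MonoidalCategory C]
  [MonoidalPreadditive C] [MonoidalLinear ℚ C] [SymmetricCategory C] [RightRigidCategory C]

lemma Dn_one (X : C) (n : ℕ) : Dn n (fun _ => 𝟙 X) = 𝟙 (tp X n) := by
  induction n with
  | zero => rfl
  | succ n ih =>
    have e1 : Dn (n + 1) (fun _ => 𝟙 X) = Dn n (fun _ => 𝟙 X) ⊗ₘ 𝟙 X := rfl
    rw [e1, ih, id_tensorHom_id]

lemma gg_one (η : ℚ) (X : C) (n : ℕ) :
    gg η n (fun _ => (1 : End X)) = (n.factorial : ℚ) • asym η X n := by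
  unfold gg
  have h := Dn_one X n
  change (n.factorial : ℚ) • (Dn n (fun _ => 𝟙 X) ≫ asym η X n) = _
  rw [h, Category.id_comp]

/-- contraction of the (anti)symmetrizer -/
lemma ptr_asym (hU : UnitQ C) {η : ℚ} (hη : η * η = 1) (X : C) (n : ℕ) :
    ptrL (tp X n) X (((n + 1).factorial : ℚ) • asym η X (n + 1)) =
      (trq hU X (1 : End X) + η * n) • ((n.factorial : ℚ) • asym η X n) := by
  have h := ptr_gg hU hη n (fun _ => (1 : End X))
  have h1 : ∀ i : Fin n, Function.update (fun _ : Fin n => (1 : End X)) i (1 * 1) = fun _ => 1 := by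
    intro i
    rw [one_mul, Function.update_eq_self_iff]
  rw [gg_one] at h
  rw [h]
  simp only [h1, gg_one, Finset.sum_const, Finset.card_univ, Fintype.card_fin]
  rw [add_smul, mul_smul, ← Nat.cast_smul_eq_nsmul ℚ n]

lemma asym_down (hU : UnitQ C) {η : ℚ} (hη : η * η = 1) {X : C} {n : ℕ}
    (ht : trq hU X (1 : End X) + η * n ≠ 0) (h : asym η X (n + 1) = 0) : asym η X n = 0 := by
  have h1 := ptr_asym hU hη X n
  rw [h, smul_zero, map_zero] at h1
  have h2 := (smul_eq_zero.1 h1.symm).resolve_left ht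
  exact (smul_eq_zero.1 h2).resolve_left (by exact_mod_cast n.factorial_ne_zero)

lemma asym_zero_ne (hU : UnitQ C) (η : ℚ) (X : C) : asym η X 0 ≠ 0 := by
  intro h
  have h1 : (𝟙 (𝟙_ C)) = 0 := h
  have h2 := hU.inj (q := 1) (q' := 0) (by rw [h1, smul_zero, smul_zero])
  norm_num at h2

variable {K : Type w} [Field K] (R : SuperRealisation C K)

include R in
/-- **Exact exterior (symmetric) powers.** -/
theorem exact_of_kill (hU : UnitQ C) {X : C} {η : ℚ} (hη : η = 1 ∨ η = -1) {n : ℕ}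
    (h : Kills η X n) : Kills η X (Module.finrank K (R.H.obj X) + 1) ∧
      ¬ Kills η X (Module.finrank K (R.H.obj X)) := by
  have hη2 : η * η = 1 := by rcases hη with rfl | rfl <;> norm_num
  have hn := (kills_iff hη2 X n).1 h
  have hp := par_of_asym R η hη2 n hn
  set b := Module.finrank K (R.H.obj X) with hb
  have hd0 : η ≠ 0 := by rcases hη with rfl | rfl <;> norm_num
  have ht : trq hU X (1 : End X) = (-η) * b := trq_one R hU (-η) hp
  have hc : ∀ m : ℕ, m ≠ b → trq hU X (1 : End X) + η * m ≠ 0 := by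
    intro m hm h
    rw [ht] at h
    have h1 : η * ((m : ℚ) - b) = 0 := by linear_combination h
    rcases mul_eq_zero.1 h1 with h2 | h2
    · exact hd0 h2
    · exact hm (by exact_mod_cast sub_eq_zero.1 h2)
  have hno : ∀ m : ℕ, m ≤ b → asym η X m ≠ 0 := by
    intro m
    induction m with
    | zero => exact fun _ => asym_zero_ne hU _ X
    | succ m ih =>
      intro hm h
      exact ih (by omega) (asym_down hU hη2 (hc m (by omega)) h)
  have hbn : b + 1 ≤ n := by
    by_contra hlt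
    exact hno n (by omega) hn
  have hyes : ∀ j : ℕ, j ≤ n - (b + 1) → asym η X (n - j) = 0 := by
    intro j
    induction j with
    | zero => exact fun _ => hn
    | succ j ih =>
      intro hj
      have h1 := ih (by omega)
      have e : n - j = (n - (j + 1)) + 1 := by omega
      rw [e] at h1
      exact asym_down hU hη2 (hc _ (by omega)) h1
  constructor
  · rw [kills_iff hη2]
    have h1 := hyes (n - (b + 1)) le_rfl
    rwa [show n - (n - (b + 1)) = b + 1 by omega] at h1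
  · rw [kills_iff hη2]
    exact hno b le_rfl

/-- Kimura finite objects of parity `d`. -/
theorem pure_exact (hU : UnitQ C) {X : C} (hX : IsKimuraFinite X) (d : ℚ) (hd : d = 1 ∨ d = -1)
    (hp : R.par X = (d : K) • 𝟙 _) :
    Kills (-d) X (Module.finrank K (R.H.obj X) + 1) ∧
      ¬ Kills (-d) X (Module.finrank K (R.H.obj X)) := by
  have hη : -d = 1 ∨ -d = -1 := by rcases hd with rfl | rfl <;> norm_num
  have hη2 : (-d) * (-d) = 1 := by rcases hd with rfl | rfl <;> norm_num
  obtain ⟨n, hn⟩ := kill_summand R hU hX (𝟙 X) (𝟙 X) (Category.comp_id _) d hd hp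
  exact exact_of_kill R hU hη ((kills_iff hη2 X n).2 hn)

include R in
/-- Direct summands of Kimura finite objects are Kimura finite. -/
theorem kimura_summand (hU : UnitQ C) [IsIdempotentComplete C] {X Y : C} (hX : IsKimuraFinite X)
    (i : Y ⟶ X) (r : X ⟶ Y) (h : i ≫ r = 𝟙 Y) : IsKimuraFinite Y := by
  have hc : R.CPlus Y := cplus_retract R i r h (cplus_of_kimura R hX)
  have hnil : ∀ x : End Y, R.H.map (x : Y ⟶ Y) = 0 → IsNilpotent x := by
    intro x hx
    apply cj_nilp i r h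
    apply nilp_of_kimura R hU hX
    apply inRad_of_map R hU
    change R.H.map (r ≫ (x : Y ⟶ Y) ≫ i) = 0
    rw [Functor.map_comp, Functor.map_comp, hx, zero_comp, comp_zero]
  obtain ⟨E, O, a, b, c, e, h1, h2, h3, hE, hO⟩ := exists_summands R hc hnil
  obtain ⟨n, hn⟩ := kill_summand R hU hX (a ≫ i) (r ≫ b)
    (by rw [Category.assoc, reassoc_of% h, h1]) 1 (Or.inl rfl) hE
  obtain ⟨m, hm⟩ := kill_summand R hU hX (c ≫ i) (r ≫ e)
    (by rw [Category.assoc, reassoc_of% h, h2]) (-1) (Or.inr rfl) hO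
  rw [neg_neg] at hm
  exact ⟨E, O, a, b, c, e, h1, h2, h3, ⟨n, (kills_iff (by norm_num) _ _).2 hn⟩,
    ⟨m, (kills_iff (by norm_num) _ _).2 hm⟩⟩

/-- Endomorphisms of Kimura finite objects with zero realisation are nilpotent. -/
theorem kimura_nilp (hU : UnitQ C) {X : C} (hX : IsKimuraFinite X) (x : End X)
    (hx : R.H.map (x : X ⟶ X) = 0) : IsNilpotent x :=
  nilp_of_kimura R hU hX x (inRad_of_map R hU x hx)

/-! ### dimensions -/

lemma trace_comm' {X Y : C} (a : X ⟶ Y) (b : Y ⟶ X) :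
    LinearMap.trace K (R.H.obj X) (R.H.map (a ≫ b)).hom =
      LinearMap.trace K (R.H.obj Y) (R.H.map (b ≫ a)).hom := by
  have h1 := R.finite X
  have h2 := R.finite Y
  rw [Functor.map_comp, Functor.map_comp, ModuleCat.hom_comp, ModuleCat.hom_comp]
  exact LinearMap.trace_comp_comm' _ _

/-- `X` is the direct sum of `Y` and of `m` copies of the unit object. -/
def PlusUnits (X Y : C) (m : ℕ) : Prop :=
  ∃ (i₀ : Y ⟶ X) (r₀ : X ⟶ Y) (i : Fin m → (𝟙_ C ⟶ X)) (r : Fin m → (X ⟶ 𝟙_ C)),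
    i₀ ≫ r₀ = 𝟙 Y ∧ (∀ j, i j ≫ r j = 𝟙 _) ∧ r₀ ≫ i₀ + ∑ j, r j ≫ i j = 𝟙 X

lemma trace_id (X : C) : LinearMap.trace K (R.H.obj X) (R.H.map (𝟙 X)).hom =
    (Module.finrank K (R.H.obj X) : K) := by
  have h1 := R.finite X
  rw [CategoryTheory.Functor.map_id, ModuleCat.hom_id]
  exact LinearMap.trace_id K _

lemma finrank_unit : Module.finrank K (R.H.obj (𝟙_ C)) = 1 := by
  have e : R.H.obj (𝟙_ C) ≅ 𝟙_ (ModuleCat.{w} K) := (Functor.Monoidal.εIso R.H).symm
  rw [LinearEquiv.finrank_eq e.toLinearEquiv]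
  exact Module.finrank_self K

lemma PlusUnits.finrank {X Y : C} {m : ℕ} (h : PlusUnits X Y m) :
    Module.finrank K (R.H.obj X) = Module.finrank K (R.H.obj Y) + m := by
  have hc := R_charZero R
  obtain ⟨i₀, r₀, i, r, h0, h1, h2⟩ := h
  have e1 := trace_id R X
  rw [← h2, Functor.map_add, ModuleCat.hom_add, map_add, trace_comm' R r₀ i₀, h0, trace_id R,
    Functor.map_sum] at e1
  have e2 : LinearMap.trace K (R.H.obj X) (∑ j, R.H.map (r j ≫ i j)).hom = (m : K) := by
    rw [ModuleCat.hom_sum, map_sum]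
    have : ∀ j, LinearMap.trace K (R.H.obj X) (R.H.map (r j ≫ i j)).hom = 1 := fun j => by
      rw [trace_comm' R (r j) (i j), h1, trace_id R, finrank_unit R, Nat.cast_one]
    simp only [this]
    simp
  rw [e2] at e1
  exact_mod_cast e1.symm

include R in
lemma trq_unit (hU : UnitQ C) : trq hU (𝟙_ C) (1 : End (𝟙_ C)) = 1 := by
  have h := trq_one R hU (X := 𝟙_ C) 1 (by rw [R.par_unit]; push_cast; rw [one_smul])
  rw [h, finrank_unit R, Nat.cast_one, mul_one]

include R in
lemma trq_split (hU : UnitQ C) {X Y : C} (i : Y ⟶ X) (r : X ⟶ Y) (h : i ≫ r = 𝟙 Y) :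
    trq hU X ((r ≫ i : X ⟶ X) : End X) = trq hU Y (1 : End Y) := by
  rw [trq_comm' R hU r i]
  congr 1

include R in
lemma PlusUnits.trq {X Y : C} {m : ℕ} (hU : UnitQ C) (h : PlusUnits X Y m) :
    trq hU X (1 : End X) = trq hU Y (1 : End Y) + m := by
  obtain ⟨i₀, r₀, i, r, h0, h1, h2⟩ := h
  have e : (1 : End X) = ((r₀ ≫ i₀ : X ⟶ X) : End X) + ∑ j, ((r j ≫ i j : X ⟶ X) : End X) :=
    h2.symm
  rw [e, map_add, map_sum, trq_split R hU i₀ r₀ h0]
  simp only [trq_split R hU (i _) (r _) (h1 _), trq_unit R hU]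
  simp

lemma finrank_split {X A B : C} (i : A ⟶ X) (r : X ⟶ A) (j : B ⟶ X) (s : X ⟶ B)
    (h1 : i ≫ r = 𝟙 A) (h2 : j ≫ s = 𝟙 B) (h3 : r ≫ i + s ≫ j = 𝟙 X) :
    Module.finrank K (R.H.obj X) = Module.finrank K (R.H.obj A) + Module.finrank K (R.H.obj B) := by
  have hc := R_charZero R
  have e1 := trace_id R X
  rw [← h3, Functor.map_add, ModuleCat.hom_add, map_add, trace_comm' R r i, h1, trace_id R,
    trace_comm' R s j, h2, trace_id R] at e1
  exact_mod_cast e1.symm

/-- The decomposition of a Kimura finite object with the dimensions of the two parts. -/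
theorem kimura_parts (hU : UnitQ C) {X : C} (hX : IsKimuraFinite X) {b₀ b₁ : ℕ}
    (hd : Module.finrank K (R.H.obj X) = b₀ + b₁) (ht : trq hU X (1 : End X) = (b₀ : ℚ) - b₁) :
    ∃ (E O : C) (i : E ⟶ X) (r : X ⟶ E) (j : O ⟶ X) (s : X ⟶ O),
      i ≫ r = 𝟙 E ∧ j ≫ s = 𝟙 O ∧ r ≫ i + s ≫ j = 𝟙 X ∧
        (Kills (-1) E (b₀ + 1) ∧ ¬ Kills (-1) E b₀) ∧ Kills 1 O (b₁ + 1) ∧ ¬ Kills 1 O b₁ := by
  obtain ⟨E, O, i, r, j, s, h1, h2, h3, ⟨n, hn⟩, ⟨m, hm⟩⟩ := hX
  have hE := exact_of_kill R hU (Or.inr rfl) hn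
  have hO := exact_of_kill R hU (Or.inl rfl) hm
  have pE := par_of_asym R (-1) (by norm_num) n ((kills_iff (by norm_num) _ _).1 hn)
  have pO := par_of_asym R 1 (by norm_num) m ((kills_iff (by norm_num) _ _).1 hm)
  have tE := trq_one R hU (-(-1)) pE
  have tO := trq_one R hU (-1) pO
  have e1 := finrank_split R i r j s h1 h2 h3
  have e2 : trq hU X (1 : End X) = trq hU E (1 : End E) + trq hU O (1 : End O) := by
    have e : (1 : End X) = ((r ≫ i : X ⟶ X) : End X) + ((s ≫ j : X ⟶ X) : End X) := h3.symm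
    rw [e, map_add, trq_split R hU i r h1, trq_split R hU j s h2]
  set p := Module.finrank K (R.H.obj E) with hp
  set q := Module.finrank K (R.H.obj O) with hq
  rw [tE, tO, ht] at e2
  have e3 : (p : ℚ) + q = b₀ + b₁ := by
    rw [hd] at e1
    exact_mod_cast e1.symm
  have h4 : p = b₀ := by
    have : (p : ℚ) = b₀ := by linarith
    exact_mod_cast this
  have h5 : q = b₁ := by
    have : (q : ℚ) = b₁ := by linarith
    exact_mod_cast this
  rw [h4] at hE
  rw [h5] at hO
  exact ⟨E, O, i, r, j, s, h1, h2, h3, hE, hO⟩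

end Pool.Agent.Q210.KF
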