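import Pool.Agent.Q28.HJ.GDefs
import Pool.Agent.Q210.KF.Pure

/-!
# Sums of binary forms and of cubic forms in four variables: Kimura finiteness, definitions
-/

open CategoryTheory MonoidalCategory

universe v u w w'

namespace Pool.Agent.Q210.KF

open Pool.Agent.Q28.HJ Pool.Agent.Y112.SR Pool.Agent.Y112.KD Pool.Agent.Q20.Kf

/-- The category `𝓜` of Chow motives (rational coefficients) over an algebraically closed field of
characteristic zero, with the hypersurfaces and the abelian varieties. -/
structure AbelianData (𝓜 : Type u) [Category.{v} 𝓜] extends JoinData.{v, u, w} 𝓜 where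
  /-- `M` is the Chow motive of an abelian variety -/
  Ab : 𝓜 → Prop
  /-- the Chow motive of a smooth hypersurface -/
  mot : Hyp → 𝓜

namespace AbelianData

variable {𝓜 : Type u} [Category.{v} 𝓜] [Preadditive 𝓜] [Linear ℚ 𝓜] [MonoidalCategory 𝓜]
  [MonoidalPreadditive 𝓜] [MonoidalLinear ℚ 𝓜] [SymmetricCategory 𝓜]
  (T : AbelianData.{v, u, w} 𝓜)

/-- `b` is the primitive Betti number of a smooth hypersurface of degree `d` and dimension `n`, that
is, `d b = (d - 1) ^ (n + 2) + (-1) ^ n (d - 1)`. -/
def IsBetti (d n b : ℕ) : Prop :=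
  (d : ℤ) * b = ((d : ℤ) - 1) ^ (n + 2) + (-1) ^ n * ((d : ℤ) - 1)

/-- Known facts: `core`: sums of forms (Shioda, Katsura); `abelian`: the motives of curves and of
cubic surfaces and threefolds are generated by those of abelian varieties; `mot`: the motive of a
hypersurface is a direct sum of `M_X` and of powers of `L`; `kimura`: motives generated by those of
abelian varieties are finite-dimensional (Kimura); `par`, `betti`: the cohomology of `M_X` lives in
degree `dim X` and its dimension is the primitive Betti number. -/
structure Facts {K : Type w'} [Field K] (R : SuperRealisation 𝓜 K) : Prop where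
  core : T.CoreFacts
  abelian : T.AbelianFacts T.Ab
  mot : ∀ X : T.Hyp, T.Smooth X → GenBy T.L (fun N => N = T.prim X) (T.mot X)
  kimura : ∀ M : 𝓜, GenBy T.L T.Ab M → IsKimuraFinite M
  par : ∀ X : T.Hyp, T.Smooth X → R.par (T.prim X) = (((-1) ^ T.dim X : ℚ) : K) • 𝟙 _
  betti : ∀ X : T.Hyp, T.Smooth X →
    IsBetti (T.deg X) (T.dim X) (Module.finrank K (R.H.obj (T.prim X)))

end AbelianData

end Pool.Agent.Q210.KF
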