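import Pool.Agent.Q210.KF.NcDefs
import Pool.Agent.Q28.HJ.GMain

/-!
# Noncommutative motives of hypersurfaces given by sums of forms
-/

open CategoryTheory MonoidalCategory Limits

universe v u w w' v' u'

namespace Pool.Agent.Q210.KF

open Pool.Agent.Q28.HJ Pool.Agent.Y112.SR Pool.Agent.Y112.KD Pool.Agent.Q20.Kf

namespace NCData

variable {𝓜 : Type u} [Category.{v} 𝓜] [Preadditive 𝓜] [Linear ℚ 𝓜] [MonoidalCategory 𝓜]
  [MonoidalPreadditive 𝓜] [MonoidalLinear ℚ 𝓜] [SymmetricCategory 𝓜]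
  {𝓝 : Type u'} [Category.{v'} 𝓝] [Preadditive 𝓝] [Linear ℚ 𝓝] [MonoidalCategory 𝓝]
  [MonoidalPreadditive 𝓝] [MonoidalLinear ℚ 𝓝] [SymmetricCategory 𝓝] [RightRigidCategory 𝓝]
  [IsIdempotentComplete 𝓝]
  {T : NCData.{v, u, w, v', u'} 𝓜 𝓝} [T.U.Additive] [T.U.Linear ℚ] [T.U.Braided]
  {K : Type w'} [Field K] {R : SuperRealisation 𝓝 K}

/-- direct summands of the noncommutative motives of products -/
theorem finite (hU : UnitQ 𝓝) (hT : T.Facts R) {M : 𝓜}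
    (hM : GenBy T.L (fun N => T.Ab N ∨ ∃ W, T.IsAbelianSum W ∧ N = T.mot W) M) {A : 𝓝}
    (hA : Nonempty (Retract A (T.U.obj M))) :
    IsKimuraFinite A ∧ (∀ x : End A, R.H.map (x : A ⟶ A) = 0 → IsNilpotent x) ∧
      (IsZero (R.H.obj A) → IsZero A) := by
  have h0 : GenBy T.L T.Ab M := by
    refine hM.bind ?_
    rintro N (hN | ⟨W, hW, rfl⟩)
    · exact .of hN
    · obtain ⟨hs, h⟩ := JoinData.abelian_sum hT.core hT.abelian hW
      refine (hT.mot W hs).bind ?_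
      rintro N rfl
      exact h
  obtain ⟨r⟩ := hA
  have h1 : IsKimuraFinite (T.U.obj M) := (hT.kimura M h0).map
  have h : IsKimuraFinite A := kimura_summand R hU h1 r.i r.r r.retract
  refine ⟨h, fun x hx => kimura_nilp R hU h x hx, fun hz => ?_⟩
  obtain ⟨n, hn⟩ := kimura_nilp R hU h (1 : End A) (hz.eq_of_src _ _)
  rw [one_pow] at hn
  rw [IsZero.iff_id_eq_zero]
  exact hn

/-- the Kuznetsov components -/
theorem ku_parts (hU : UnitQ 𝓝) (hT : T.Facts R) {W : T.Hyp} (hW : T.IsAbelianSum W)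
    (hd : T.deg W ≤ T.dim W + 2) (hd0 : 1 ≤ T.deg W) :
    ∃ b : ℕ, IsPrimBetti (T.deg W) (T.dim W) b ∧
      ∃ (E O : 𝓝) (i : E ⟶ T.Ku W) (r : T.Ku W ⟶ E) (j : O ⟶ T.Ku W) (s : T.Ku W ⟶ O),
        i ≫ r = 𝟙 E ∧ j ≫ s = 𝟙 O ∧ r ≫ i + s ≫ j = 𝟙 _ ∧
        (Even (T.dim W) → (Kills (-1) E (b + T.deg W) ∧ ¬ Kills (-1) E (b + (T.deg W - 1))) ∧
          IsZero O) ∧
        (Odd (T.dim W) → (Kills (-1) E (T.deg W) ∧ ¬ Kills (-1) E (T.deg W - 1)) ∧
          Kills 1 O (b + 1) ∧ ¬ Kills 1 O b) := by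
  obtain ⟨hs, h⟩ := JoinData.abelian_sum hT.core hT.abelian hW
  have hp := hT.par W hs
  set b := Module.finrank K (R.H.obj (T.U.obj (T.prim W))) with hb
  have hku := hT.ku W hs hd
  have hun := hT.units W hs
  have hK : IsKimuraFinite (T.Ku W) := by
    obtain ⟨i₀, r₀, -, -, h0, -⟩ := hku
    exact (finite (A := T.Ku W) hU hT (.of (Or.inr ⟨W, hW, rfl⟩)) ⟨⟨i₀, r₀, h0⟩⟩).1
  have e1 := hku.finrank R
  have e2 := hun.finrank R
  have t1 := hku.trq R hU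
  have t2 := hun.trq R hU
  have t3 := trq_one R hU _ hp
  rw [e2, ← hb] at e1
  rw [t2, t3, ← hb] at t1
  push_cast at t1
  have hm : (T.dim W + 2 - T.deg W) + T.deg W = T.dim W + 2 := Nat.sub_add_cancel hd
  set m := T.dim W + 2 - T.deg W with hm'
  have hmq : (m : ℚ) + T.deg W = T.dim W + 2 := by exact_mod_cast hm
  have hzero : ∀ O : 𝓝, Kills 1 O 1 → IsZero O := by
    intro O hO
    have h1 : 𝟙 (𝟙_ 𝓝 ⊗ O) = 0 := (kills_iff (by norm_num) O 1).1 hO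
    rw [IsZero.iff_id_eq_zero]
    have h2 : 𝟙 O = (λ_ O).inv ≫ 𝟙 (𝟙_ 𝓝 ⊗ O) ≫ (λ_ O).hom := by simp
    rw [h2, h1, zero_comp, comp_zero]
  refine ⟨b, hT.betti W hs, ?_⟩
  rcases Nat.even_or_odd (T.dim W) with hn | hn
  · rw [hn.neg_one_pow] at t1
    obtain ⟨E, O, i, r, j, s, h1, h2, h3, hE, hO⟩ := kimura_parts R hU hK
      (b₀ := b + (T.deg W - 1)) (b₁ := 0) (by omega) (by
        push_cast [Nat.cast_sub hd0]
        linarith)
    refine ⟨E, O, i, r, j, s, h1, h2, h3, fun _ => ⟨⟨?_, hE.2⟩, hzero O hO.1⟩, fun hn' => ?_⟩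
    · have := hE.1
      rwa [show b + (T.deg W - 1) + 1 = b + T.deg W by omega] at this
    · exact absurd hn (Nat.not_even_iff_odd.2 hn')
  · rw [hn.neg_one_pow] at t1
    obtain ⟨E, O, i, r, j, s, h1, h2, h3, hE, hO⟩ := kimura_parts R hU hK
      (b₀ := T.deg W - 1) (b₁ := b) (by omega) (by
        push_cast [Nat.cast_sub hd0]
        linarith)
    refine ⟨E, O, i, r, j, s, h1, h2, h3, fun hn' => ?_, fun _ => ⟨⟨?_, hE.2⟩, hO⟩⟩
    · exact absurd hn' (Nat.not_even_iff_odd.2 hn)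
    · have := hE.1
      rwa [show T.deg W - 1 + 1 = T.deg W by omega] at this

end NCData

end Pool.Agent.Q210.KF
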