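import Pool.Agent.Q28.HJ.GDefs
import Pool.Agent.Q210.KF.Pure

/-!
# Noncommutative motives of hypersurfaces given by sums of forms: definitions
-/

open CategoryTheory MonoidalCategory

universe v u w w' v' u'

namespace Pool.Agent.Q210.KF

open Pool.Agent.Q28.HJ Pool.Agent.Y112.SR Pool.Agent.Y112.KD Pool.Agent.Q20.Kf

/-- The categories `𝓜` of Chow motives and `𝓝` of noncommutative Chow motives (rational
coefficients) over an algebraically closed field of characteristic zero, the functor `U` which sends
the Chow motive of `X` to the noncommutative motive of `perf_dg(X)`, the hypersurfaces and their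
Kuznetsov components, and the abelian varieties. -/
structure NCData (𝓜 : Type u) [Category.{v} 𝓜] (𝓝 : Type u') [Category.{v'} 𝓝]
    extends JoinData.{v, u, w} 𝓜 where
  /-- the functor from Chow motives to noncommutative Chow motives -/
  U : 𝓜 ⥤ 𝓝
  /-- `M` is the Chow motive of an abelian variety -/
  Ab : 𝓜 → Prop
  /-- the Chow motive of a smooth hypersurface -/
  mot : Hyp → 𝓜
  /-- the noncommutative motive of the Kuznetsov component `Ku(X)` of the derived category of a
  smooth hypersurface of degree at most `dim X + 2`: the orthogonal complement of the line bundles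
  `O, O(1), …, O(n + 1 - d)` -/
  Ku : Hyp → 𝓝

/-- `b` is the primitive Betti number of a smooth hypersurface of degree `d` and dimension `n`, that
is, `d b = (d - 1) ^ (n + 2) + (-1) ^ n (d - 1)`. -/
def IsPrimBetti (d n b : ℕ) : Prop :=
  (d : ℤ) * b = ((d : ℤ) - 1) ^ (n + 2) + (-1) ^ n * ((d : ℤ) - 1)

namespace NCData

variable {𝓜 : Type u} [Category.{v} 𝓜] [Preadditive 𝓜] [Linear ℚ 𝓜] [MonoidalCategory 𝓜]
  [MonoidalPreadditive 𝓜] [MonoidalLinear ℚ 𝓜] [SymmetricCategory 𝓜]
  {𝓝 : Type u'} [Category.{v'} 𝓝] [Preadditive 𝓝] [Linear ℚ 𝓝] [MonoidalCategory 𝓝]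
  [MonoidalPreadditive 𝓝] [MonoidalLinear ℚ 𝓝] [SymmetricCategory 𝓝]
  (T : NCData.{v, u, w, v', u'} 𝓜 𝓝)

/-- Known facts: `core`: sums of forms (Shioda, Katsura); `abelian`: the motives of curves and of
cubic surfaces and threefolds are generated by those of abelian varieties; `mot`: the motive of a
hypersurface is a direct sum of `M_X` and of powers of `L`; `kimura`: motives generated by those of
abelian varieties are finite-dimensional (Kimura); `units`: in the noncommutative motives the powers
of `L` become unit objects, so that `U(X)` is the direct sum of `U(M_X)` and of `dim X + 1` unit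
objects; `ku`: `D(X)` has a semiorthogonal decomposition with the components `Ku(X)` and
`dim X + 2 - deg X` exceptional objects (Bondal, Kuznetsov); `par`, `betti`: the periodic cyclic
homology of `U(M_X)` is the primitive cohomology of `X`, it has the parity of `dim X` and its
dimension is the primitive Betti number. -/
structure Facts {K : Type w'} [Field K] (R : SuperRealisation 𝓝 K) : Prop where
  core : T.CoreFacts
  abelian : T.AbelianFacts T.Ab
  mot : ∀ X : T.Hyp, T.Smooth X → GenBy T.L (fun N => N = T.prim X) (T.mot X)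
  kimura : ∀ M : 𝓜, GenBy T.L T.Ab M → IsKimuraFinite M
  units : ∀ X : T.Hyp, T.Smooth X → PlusUnits (T.U.obj (T.mot X)) (T.U.obj (T.prim X)) (T.dim X + 1)
  ku : ∀ X : T.Hyp, T.Smooth X → T.deg X ≤ T.dim X + 2 →
    PlusUnits (T.U.obj (T.mot X)) (T.Ku X) (T.dim X + 2 - T.deg X)
  par : ∀ X : T.Hyp, T.Smooth X → R.par (T.U.obj (T.prim X)) = (((-1) ^ T.dim X : ℚ) : K) • 𝟙 _
  betti : ∀ X : T.Hyp, T.Smooth X →
    IsPrimBetti (T.deg X) (T.dim X) (Module.finrank K (R.H.obj (T.U.obj (T.prim X))))

end NCData

end Pool.Agent.Q210.KF
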